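import Mathlib
import Pool.Agent.MP_867aae_co.P75.ON

/-!
The Bang-Sharp-Winkler product formula for all `n`, `t`, `s`: some product family is a maximum
`I_t, U_s`-family.
-/

namespace Pool.Agent.Results.MP_867aae_co.ProductFormula

open Finset

/-- For all `n`, `t`, `s` there are `q ≤ n`, a `t`-intersecting family `G` of subsets of the first
`q` points and an `s`-union family `H` of subsets of the last `n - q` points such that the product
family `{A ∪ B : A ∈ G, B ∈ H}` has `|G| * |H|` members, is an `I_t, U_s`-family of subsets of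
`[n]`, and is at least as large as every `I_t, U_s`-family of subsets of `[n]`. -/
theorem result (n t s : ℕ) :
    ∃ q : ℕ, q ≤ n ∧ ∃ G H : Finset (Finset (Fin n)),
      (∀ A ∈ G, ∀ x ∈ A, (x : ℕ) < q) ∧ (∀ B ∈ H, ∀ x ∈ B, q ≤ (x : ℕ)) ∧
      (∀ A ∈ G, ∀ A' ∈ G, t ≤ (A ∩ A').card) ∧
      (∀ B ∈ H, ∀ B' ∈ H, (B ∪ B').card + s ≤ n - q) ∧
      ((G ×ˢ H).image (fun p => p.1 ∪ p.2)).card = G.card * H.card ∧
      (∀ A ∈ (G ×ˢ H).image (fun p => p.1 ∪ p.2), ∀ B ∈ (G ×ˢ H).image (fun p => p.1 ∪ p.2),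
        t ≤ (A ∩ B).card ∧ (A ∪ B).card + s ≤ n) ∧
      ∀ F : Finset (Finset (Fin n)),
        (∀ A ∈ F, ∀ B ∈ F, t ≤ (A ∩ B).card ∧ (A ∪ B).card + s ≤ n) →
          F.card ≤ ((G ×ˢ H).image (fun p => p.1 ∪ p.2)).card := by
  classical
  -- a maximum family
  obtain ⟨F0, hF0, hmax⟩ := Finset.exists_max_image
    ((univ : Finset (Finset (Finset (Fin n)))).filter (fun F => ∀ A ∈ F, ∀ B ∈ F,
      t ≤ (A ∩ B).card ∧ (A ∪ B).card + s ≤ n)) (fun F => F.card)
    ⟨∅, by simp⟩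
  rw [mem_filter] at hF0
  obtain ⟨q, hq, G0, hG0, H0, hH0, hle⟩ :=
    Pool.Agent.MP_867aae_co.P75.all_parities n t s F0 hF0.2
  let e1 : Fin q ↪ Fin n := ⟨fun x => ⟨x, by omega⟩, fun x y h => by
    have := congrArg Fin.val h
    exact Fin.ext this⟩
  let e2 : Fin (n - q) ↪ Fin n := ⟨fun x => ⟨q + x, by omega⟩, fun x y h => by
    have := congrArg Fin.val h
    simp only at this
    exact Fin.ext (by omega)⟩
  let G : Finset (Finset (Fin n)) := G0.map ⟨fun A => A.map e1, map_injective _⟩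
  let H : Finset (Finset (Fin n)) := H0.map ⟨fun B => B.map e2, map_injective _⟩
  have hGm : ∀ A ∈ G, ∃ A0 ∈ G0, A = A0.map e1 := by
    intro A hA
    obtain ⟨A0, h1, h2⟩ := mem_map.1 hA
    exact ⟨A0, h1, h2.symm⟩
  have hHm : ∀ B ∈ H, ∃ B0 ∈ H0, B = B0.map e2 := by
    intro B hB
    obtain ⟨B0, h1, h2⟩ := mem_map.1 hB
    exact ⟨B0, h1, h2.symm⟩
  have hG1 : ∀ A ∈ G, ∀ x ∈ A, (x : ℕ) < q := by
    intro A hA x hx
    obtain ⟨A0, -, rfl⟩ := hGm A hA
    obtain ⟨y, -, rfl⟩ := mem_map.1 hx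
    exact y.2
  have hH1 : ∀ B ∈ H, ∀ x ∈ B, q ≤ (x : ℕ) := by
    intro B hB x hx
    obtain ⟨B0, -, rfl⟩ := hHm B hB
    obtain ⟨y, -, rfl⟩ := mem_map.1 hx
    exact Nat.le_add_right _ _
  have hG2 : ∀ A ∈ G, ∀ A' ∈ G, t ≤ (A ∩ A').card := by
    intro A hA A' hA'
    obtain ⟨A0, h0, rfl⟩ := hGm A hA
    obtain ⟨A1, h1, rfl⟩ := hGm A' hA'
    rw [← map_inter, card_map]
    exact hG0 A0 h0 A1 h1
  have hH2 : ∀ B ∈ H, ∀ B' ∈ H, (B ∪ B').card + s ≤ n - q := by
    intro B hB B' hB'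
    obtain ⟨B0, h0, rfl⟩ := hHm B hB
    obtain ⟨B1, h1, rfl⟩ := hHm B' hB'
    rw [← map_union, card_map]
    exact hH0 B0 h0 B1 h1
  have hrec : ∀ A ∈ G, ∀ B ∈ H, (A ∪ B).filter (fun x : Fin n => (x : ℕ) < q) = A ∧
      (A ∪ B).filter (fun x : Fin n => ¬ (x : ℕ) < q) = B := by
    intro A hA B hB
    constructor
    · ext x
      simp only [mem_filter, mem_union]
      constructor
      · rintro ⟨h | h, h'⟩
        · exact h
        · have := hH1 B hB x h; omega
      · intro h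
        exact ⟨Or.inl h, hG1 A hA x h⟩
    · ext x
      simp only [mem_filter, mem_union]
      constructor
      · rintro ⟨h | h, h'⟩
        · exact absurd (hG1 A hA x h) h'
        · exact h
      · intro h
        exact ⟨Or.inr h, by have := hH1 B hB x h; omega⟩
  have hcard : ((G ×ˢ H).image (fun p => p.1 ∪ p.2)).card = G.card * H.card := by
    rw [card_image_of_injOn, card_product]
    rintro ⟨A, B⟩ h ⟨A', B'⟩ h' hE
    simp only [coe_product, Set.mem_prod, mem_coe] at h h' hE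
    obtain ⟨a1, a2⟩ := hrec A h.1 B h.2
    obtain ⟨b1, b2⟩ := hrec A' h'.1 B' h'.2
    rw [hE, b1] at a1
    rw [hE, b2] at a2
    rw [a1, a2]
  refine ⟨q, hq, G, H, hG1, hH1, hG2, hH2, hcard, ?_, ?_⟩
  · intro P hP P' hP'
    obtain ⟨⟨A, B⟩, h, rfl⟩ := mem_image.1 hP
    obtain ⟨⟨A', B'⟩, h', rfl⟩ := mem_image.1 hP'
    rw [mem_product] at h h'
    simp only at h h' ⊢
    constructor
    · refine (hG2 A h.1 A' h'.1).trans (card_le_card ?_)
      intro x hx
      rw [mem_inter] at hx ⊢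
      exact ⟨mem_union_left _ hx.1, mem_union_left _ hx.2⟩
    · have h1 := hH2 B h.2 B' h'.2
      have h2 : ((A ∪ A').card) ≤ q := by
        have h3 : A ∪ A' ⊆ (univ : Finset (Fin q)).map e1 := by
          intro x hx
          have hxq : (x : ℕ) < q := by
            rcases mem_union.1 hx with h4 | h4
            · exact hG1 A h.1 x h4
            · exact hG1 A' h'.1 x h4
          exact mem_map.2 ⟨⟨x, hxq⟩, mem_univ _, Fin.ext rfl⟩
        have h4 := card_le_card h3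
        rwa [card_map, card_univ, Fintype.card_fin] at h4
      have h5 : (A ∪ B) ∪ (A' ∪ B') = (A ∪ A') ∪ (B ∪ B') := by
        ext x; simp only [mem_union]; tauto
      rw [h5]
      have h6 := card_union_le (A ∪ A') (B ∪ B')
      omega
  · intro F hF
    rw [hcard]
    have h1 := hmax F (mem_filter.2 ⟨mem_univ _, hF⟩)
    have h2 : G.card = G0.card := card_map _
    have h3 : H.card = H0.card := card_map _
    rw [h2, h3]
    exact h1.trans hle

end Pool.Agent.Results.MP_867aae_co.ProductFormula
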